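import Pool.Agent.Run7.h721.KL3.Iface

/-!
# Project KL3: one composition
-/

set_option linter.unusedSectionVars false
set_option linter.unusedVariables false
set_option maxHeartbeats 1000000

namespace Pool.Agent.Run7.h610.KL3

open Finset
open Pool.Agent.N35.HL
open Pool.Agent.Run7.h721.KL3

/-- the parameters of a composition -/
noncomputable def prm (D Δ P Q U Rz P₂ Rd : ℕ) : Prm where
  Nx := 50 * P
  V₁ := 2500 * Rz * P
  Rz := Rz
  Δ := Δ
  Rd := Rd
  φ := 1 / (51200 * D * P)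
  lam := 1 / (500 * Rz * (50 * P))
  κ := 1 / (2 ^ 18 * U * Rz * (50 * (50 * P * P₂)))
  ε := (1 / (51200 * D * P)) * (1 / Q) / (2 ^ 13 * (50 * P))

theorem t_COMP : S_COMP := by
  intro D N E P Q T L Rd g E₂ P₂ Rz Δ U M hO hI hQ1 hT1 hc
  obtain ⟨hP, hE, hD, A, R, H, _, _, _, O, k₁, K₁, hO, hA, hR, hH⟩ := hO
  obtain ⟨hP₂, hE₂, G, R₂, H₂, _, _, _, I, k₂, hI, hG, hR₂, hH₂⟩ := hI
  have hRne : Nonempty R₂ := Fintype.card_pos_iff.mp (by omega)
  obtain ⟨r⟩ := hRne
  obtain ⟨K, -, hK⟩ := Finset.exists_subset_card_eq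
    (show k₂ ≤ (Finset.univ : Finset G).card from by rw [Finset.card_univ]; exact hI.k_le r)
  set p := prm D Δ P Q U Rz P₂ Rd with hp
  -- positivity of all parameters
  have hΔ := hI.hΔ
  have hΔR := hI.hΔR
  have hRz : 1 ≤ Rz := hΔ.trans hΔR
  have hU1 : (1:ℝ) ≤ U := hI.hU
  have hM1 : (1:ℝ) ≤ M := hI.hM
  have hPr : (1:ℝ) ≤ P := by exact_mod_cast hP
  have hP₂r : (1:ℝ) ≤ P₂ := by exact_mod_cast hP₂
  have hDr : (1:ℝ) ≤ D := by exact_mod_cast hD
  have hΔr : (1:ℝ) ≤ Δ := by exact_mod_cast hΔ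
  have hRzr : (1:ℝ) ≤ Rz := by exact_mod_cast hRz
  have hΔRr : (Δ:ℝ) ≤ Rz := by exact_mod_cast hΔR
  have hQr : (1:ℝ) ≤ Q := by exact_mod_cast hQ1
  have hTr : (1:ℝ) ≤ T := by exact_mod_cast hT1
  have hP0 : (0:ℝ) < P := by linarith
  have hP₂0 : (0:ℝ) < P₂ := by linarith
  have hD0 : (0:ℝ) < D := by linarith
  have hΔ0 : (0:ℝ) < Δ := by linarith
  have hRz0 : (0:ℝ) < Rz := by linarith
  have hQ0 : (0:ℝ) < Q := by linarith
  have hT0 : (0:ℝ) < T := by linarith
  have hU0 : (0:ℝ) < U := by linarith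
  have hM0 : (0:ℝ) < M := by linarith
  have hRd1 : 1 ≤ Rd := hO.hRd
  have hcr2 : (T:ℝ) * (2048000 * Rz * (50 * P) ^ 2) *
      (2 ^ 27 * (M * U * Rz ^ 2 * ((50 * P) * (50 * (50 * P * P₂))))) ≤ Rd := by
    exact_mod_cast hc
  have eV : (p.V : ℝ) = Rz * (50 * P) + 2500 * Rz * P := by
    have : p.V = Rz * (50 * P) + 2500 * Rz * P := rfl
    rw [this]; push_cast; ring
  have hφe : p.φ = 1 / (51200 * D * P) := rfl
  have hle : p.lam = 1 / (500 * Rz * (50 * P)) := rfl
  have hκe : p.κ = 1 / (2 ^ 18 * U * Rz * (50 * (50 * P * P₂))) := rfl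
  have hεe : p.ε = (1 / (51200 * D * P)) * (1 / Q) / (2 ^ 13 * (50 * P)) := rfl
  have hNxe : (p.Nx : ℝ) = 50 * P := by
    have : p.Nx = 50 * P := rfl
    rw [this]; push_cast; ring
  have hRze : (p.Rz : ℝ) = Rz := rfl
  have hΔe : (p.Δ : ℝ) = Δ := rfl
  have hRde : (p.Rd : ℝ) = Rd := rfl
  have hδe : p.δ = 1 / (51200 * D * P) * (1 / (500 * Rz * (50 * P))) / 2 := rfl
  have hOK : p.OK (1 / (51200 * Δ * ((50 * P * P₂ : ℕ) : ℝ))) (1 / Q) (D / T) U M := by
    refine
      { hNx := by change 1 ≤ 50 * P; omega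
        hΔ := hΔ
        hΔR := hΔR
        hRd := hRd1
        hq := by positivity
        hq1 := by rw [div_le_one hQ0]; exact hQr
        hqD := hO.hqD
        hφ0 := by rw [hφe]; positivity
        hφ1 := ?_
        hl0 := by rw [hle]; positivity
        hl1 := ?_
        hU := hU1
        hM := hM1
        hκ0 := by rw [hκe]; positivity
        hκ1 := ?_
        hκ2 := ?_
        hφ' := by positivity
        hφ'1 := ?_
        hε0 := by rw [hεe]; positivity
        hε1 := ?_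
        hrd := ?_ }
    · rw [hφe, hNxe, div_mul_eq_mul_div, div_le_div_iff₀ (by positivity) (by norm_num)]
      have : (1:ℝ) * P ≤ D * P := mul_le_mul_of_nonneg_right hDr hP0.le
      nlinarith
    · rw [hle, hNxe, hRze, eV, div_mul_eq_mul_div, div_le_div_iff₀ (by positivity) (by norm_num)]
      have : (1:ℝ) ≤ Rz * P := by nlinarith
      nlinarith
    · rw [hκe, hle, div_mul_eq_mul_div, div_div, div_le_div_iff₀ (by positivity) (by positivity)]
      have a1 : (U:ℝ) + 1 ≤ 2 * U := by linarith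
      have a2 : (0:ℝ) < Rz * P := by positivity
      have a3 : (Rz * P : ℝ) * 1 ≤ Rz * P * P₂ := mul_le_mul_of_nonneg_left hP₂r a2.le
      have a4 : (1 * ((U:ℝ) + 1)) * (500 * Rz * (50 * P) * 64) ≤
          (2 * U) * (500 * Rz * (50 * P) * 64) := by
        apply mul_le_mul_of_nonneg_right _ (by positivity)
        linarith
      refine a4.trans ?_
      have a5 : (U:ℝ) * (Rz * P * 1) ≤ U * (Rz * P * P₂) := mul_le_mul_of_nonneg_left a3 hU0.le
      have a6 : (0:ℝ) < U * (Rz * P * P₂) := by positivity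
      nlinarith
    · rw [hκe, hΔe]
      have a1 : (U:ℝ) + 1 ≤ 2 * U := by linarith
      have e1 : (1 / (51200 * (Δ:ℝ) * ((50 * P * P₂ : ℕ) : ℝ))) * Δ = 1 / (51200 * (50 * P * P₂)) := by
        push_cast
        field_simp
      rw [e1, div_mul_eq_mul_div, mul_div_assoc', div_le_div_iff₀ (by positivity) (by positivity)]
      have a2 : (0:ℝ) < P * P₂ := by positivity
      have a3 : (U * (P * P₂) : ℝ) * 1 ≤ U * (P * P₂) * Rz :=
        mul_le_mul_of_nonneg_left hRzr (by positivity)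
      have a4 : (128 * (1 * ((U:ℝ) + 1))) * (51200 * (50 * P * P₂)) ≤
          (128 * (2 * U)) * (51200 * (50 * P * P₂)) := by
        apply mul_le_mul_of_nonneg_right _ (by positivity)
        linarith
      refine a4.trans ?_
      nlinarith
    · rw [hΔe, hNxe]
      have e1 : (1 / (51200 * (Δ:ℝ) * ((50 * P * P₂ : ℕ) : ℝ))) * Δ = 1 / (51200 * (50 * P * P₂)) := by
        push_cast
        field_simp
      rw [e1, mul_div_assoc', div_mul_eq_mul_div, div_le_one (by positivity)]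
      have a3 : (P : ℝ) * 1 ≤ P * P₂ := mul_le_mul_of_nonneg_left hP₂r hP0.le
      nlinarith
    · rw [hεe, hφe, hNxe]
      have e1 : 400 * ((1 / (51200 * (D:ℝ) * P)) * (1 / Q) / (2 ^ 13 * (50 * P)) * (50 * P + 6)) =
        (1 / (51200 * D * P) * (1 / Q)) * (400 * (50 * P + 6) / (2 ^ 13 * (50 * P))) := by ring
      rw [e1]
      have h1 : 400 * (50 * (P:ℝ) + 6) / (2 ^ 13 * (50 * P)) ≤ 1 := by
        rw [div_le_one (by positivity)]; nlinarith
      have h2 : 0 ≤ (1 / (51200 * (D:ℝ) * P) * (1 / Q)) := by positivity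
      nlinarith
    · rw [hRde, hRze, hNxe, hδe, hκe]
      have e1 : (Rd:ℝ) * (D / T) *
          (1 / (51200 * D * P) * (1 / (500 * Rz * (50 * P))) / 2 *
          (1 / (2 ^ 18 * U * Rz * (50 * (50 * P * P₂))))) =
          Rd / (T * (51200 * 500 * 50 * 2 * 2 ^ 18 * 2500 * (U * Rz ^ 2 * P ^ 3 * P₂))) := by
        field_simp
        try norm_num
      rw [e1, le_div_iff₀ (by positivity)]
      refine le_trans ?_ hcr2
      have h2 : (50 * (P:ℝ) + 2) ≤ 52 * P := by linarith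
      have h3 : 200 * ((M:ℝ) * Rz * (50 * P + 2)) *
          (T * (51200 * 500 * 50 * 2 * 2 ^ 18 * 2500 * (U * Rz ^ 2 * P ^ 3 * P₂))) ≤
          200 * ((M:ℝ) * Rz * (52 * P)) *
          (T * (51200 * 500 * 50 * 2 * 2 ^ 18 * 2500 * (U * Rz ^ 2 * P ^ 3 * P₂))) := by
        apply mul_le_mul_of_nonneg_right _ (by positivity)
        apply mul_le_mul_of_nonneg_left _ (by norm_num)
        exact mul_le_mul_of_nonneg_left h2 (by positivity)
      refine h3.trans ?_
      have h4 : 0 < (T:ℝ) * M * U * Rz ^ 3 * (P ^ 4 * P₂) := by positivity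
      have e2 : 200 * ((M:ℝ) * Rz * (52 * P)) *
          (T * (51200 * 500 * 50 * 2 * 2 ^ 18 * 2500 * (U * Rz ^ 2 * P ^ 3 * P₂))) =
        (200 * 52 * 51200 * 500 * 50 * 2 * 2 ^ 18 * 2500) * (T * M * U * Rz ^ 3 * (P ^ 4 * P₂)) := by
        ring
      have e3 : (T:ℝ) * (2048000 * Rz * (50 * P) ^ 2) *
          (2 ^ 27 * (M * U * Rz ^ 2 * ((50 * P) * (50 * (50 * P * P₂))))) =
        (2048000 * 50 ^ 2 * 2 ^ 27 * 50 * 50 * 50) * (T * M * U * Rz ^ 3 * (P ^ 4 * P₂)) := by ring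
      rw [e2, e3]
      apply mul_le_mul_of_nonneg_right _ h4.le
      norm_num
  obtain ⟨k, K', hgood⟩ := comp_good (K := K) (p := p) (m := 1)
    hO hI hOK hK (by
      change Rd = Rd * 1
      rw [mul_one])
  refine ⟨?_, ?_, hΔ, Idx A G H p.Nx p.V, Ev' R R₂ p.Nx p.V₁, Fin p.Nx × H₂, inferInstance,
    inferInstance, inferInstance, comp O I p K, k, K', ?_, ?_, ?_, ?_⟩
  · exact Nat.one_le_iff_ne_zero.mpr (by
      have : P ≠ 0 := by omega
      have : P₂ ≠ 0 := by omega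
      positivity)
  · exact Nat.one_le_iff_ne_zero.mpr (by
      have : P ≠ 0 := by omega
      have : E ≠ 0 := by omega
      have : E₂ ≠ 0 := by omega
      have : Rz ≠ 0 := by omega
      positivity)
  · convert hgood using 1
    · have e1 : p.qs M = p.ε * p.κ / (4 * M * Rz) := rfl
      rw [e1, hεe, hκe, hδe]
      push_cast
      field_simp
      try norm_num
    · rw [hδe, hΔe]
      push_cast
      field_simp
      try norm_num
    · push_cast; ring
    · rfl
  · simp only [Fintype.card_prod, Fintype.card_sum, Fintype.card_fin, Fintype.card_bool, hA, hG, hH]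
    have e1 : p.Nx = 50 * P := rfl
    have e2 : p.V = Rz * (50 * P) + 2500 * Rz * P := rfl
    rw [e1, e2]; ring
  · simp only [Fintype.card_prod, Fintype.card_fin, hR, hR₂]
    have e1 : p.Nx = 50 * P := rfl
    have e2 : p.V₁ = 2500 * Rz * P := rfl
    rw [e1, e2]; ring
  · simp only [Fintype.card_prod, Fintype.card_fin, hH₂]
    have e1 : p.Nx = 50 * P := rfl
    rw [e1]

end Pool.Agent.Run7.h610.KL3
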